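import Pool.Agent.Y6.G.Stm

/-! EP-LIN: linear forms which do not vanish at given vectors. -/

set_option autoImplicit false

namespace Pool.Agent.Y858.EP.Lin

open Pool.Agent.Y6.G
open Pool.Agent.Y6.M (Z3 nsq len)

/-- three values determine the vector -/
theorem three (k : Z3) (r s t : ℤ) (hr : 0 ≤ r ∧ r ≤ 14) (hs : 0 ≤ s ∧ s ≤ 14)
    (ht : 0 ≤ t ∧ t ≤ 14) (hrs : r ≠ s) (hrt : r ≠ t) (hst : s ≠ t) (δ : ℝ)
    (h1 : |((k 0 + r * k 1 + r ^ 2 * k 2 : ℤ) : ℝ)| ≤ δ)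
    (h2 : |((k 0 + s * k 1 + s ^ 2 * k 2 : ℤ) : ℝ)| ≤ δ)
    (h3 : |((k 0 + t * k 1 + t ^ 2 * k 2 : ℤ) : ℝ)| ≤ δ) :
    |(k 0 : ℝ)| ≤ 9000 * δ ∧ |(k 1 : ℝ)| ≤ 9000 * δ ∧ |(k 2 : ℝ)| ≤ 9000 * δ := by
  have hδ : 0 ≤ δ := (abs_nonneg _).trans h1
  obtain ⟨D, hD⟩ : ∃ D : ℤ, D = (r - s) * (r - t) * (s - t) := ⟨_, rfl⟩
  have hD0 : D ≠ 0 := by
    rw [hD]
    exact mul_ne_zero (mul_ne_zero (sub_ne_zero.2 hrs) (sub_ne_zero.2 hrt)) (sub_ne_zero.2 hst)
  have hD1 : (1 : ℝ) ≤ |(D : ℝ)| := by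
    have := Int.one_le_abs hD0
    exact_mod_cast this
  obtain ⟨x, hx⟩ : ∃ x : ℤ, x = k 0 + r * k 1 + r ^ 2 * k 2 := ⟨_, rfl⟩
  obtain ⟨y, hy⟩ : ∃ y : ℤ, y = k 0 + s * k 1 + s ^ 2 * k 2 := ⟨_, rfl⟩
  obtain ⟨z, hz⟩ : ∃ z : ℤ, z = k 0 + t * k 1 + t ^ 2 * k 2 := ⟨_, rfl⟩
  rw [← hx] at h1
  rw [← hy] at h2
  rw [← hz] at h3
  have key : ∀ (w A B C : ℤ), D * w = x * A + y * B + z * C → |A| ≤ 3000 → |B| ≤ 3000 →
      |C| ≤ 3000 → |(w : ℝ)| ≤ 9000 * δ := by
    intro w A B C hw hA hB hC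
    have hA' : |(A : ℝ)| ≤ 3000 := by exact_mod_cast hA
    have hB' : |(B : ℝ)| ≤ 3000 := by exact_mod_cast hB
    have hC' : |(C : ℝ)| ≤ 3000 := by exact_mod_cast hC
    have e1 : |(w : ℝ)| ≤ |(D : ℝ)| * |(w : ℝ)| := le_mul_of_one_le_left (abs_nonneg _) hD1
    have e2 : |(D : ℝ)| * |(w : ℝ)| = |(x : ℝ) * A + y * B + z * C| := by
      rw [← abs_mul]
      congr 1
      exact_mod_cast hw
    have e3 : |(x : ℝ) * A + y * B + z * C| ≤ |(x : ℝ) * A| + |(y : ℝ) * B| + |(z : ℝ) * C| :=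
      abs_add_three _ _ _
    rw [abs_mul, abs_mul, abs_mul] at e3
    have e4 : |(x : ℝ)| * |(A : ℝ)| ≤ δ * 3000 := mul_le_mul h1 hA' (abs_nonneg _) hδ
    have e5 : |(y : ℝ)| * |(B : ℝ)| ≤ δ * 3000 := mul_le_mul h2 hB' (abs_nonneg _) hδ
    have e6 : |(z : ℝ)| * |(C : ℝ)| ≤ δ * 3000 := mul_le_mul h3 hC' (abs_nonneg _) hδ
    linarith
  have b1 : ∀ p q : ℤ, 0 ≤ p → p ≤ 14 → 0 ≤ q → q ≤ 14 → |p - q| ≤ 14 := fun p q _ _ _ _ => by
    rw [abs_le]
    constructor <;> omega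
  have b2 : ∀ p q : ℤ, 0 ≤ p → p ≤ 14 → 0 ≤ q → q ≤ 14 → |p + q| ≤ 28 := fun p q _ _ _ _ => by
    rw [abs_le]
    constructor <;> omega
  have b3 : ∀ p q : ℤ, 0 ≤ p → p ≤ 14 → 0 ≤ q → q ≤ 14 → |p * q| ≤ 196 :=
    fun p q h1 h2 h3 h4 => by
    rw [abs_mul, abs_of_nonneg h1, abs_of_nonneg h3]
    nlinarith
  have c1 : ∀ p q : ℤ, 0 ≤ p → p ≤ 14 → 0 ≤ q → q ≤ 14 → |(p - q) * (p + q)| ≤ 3000 :=
    fun p q h1 h2 h3 h4 => by
    rw [abs_mul]
    have := mul_le_mul (b1 p q h1 h2 h3 h4) (b2 p q h1 h2 h3 h4) (abs_nonneg _) (by norm_num)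
    linarith
  have c2 : ∀ p q : ℤ, 0 ≤ p → p ≤ 14 → 0 ≤ q → q ≤ 14 → |(p - q) * (p * q)| ≤ 3000 :=
    fun p q h1 h2 h3 h4 => by
    rw [abs_mul]
    have := mul_le_mul (b1 p q h1 h2 h3 h4) (b3 p q h1 h2 h3 h4) (abs_nonneg _) (by norm_num)
    linarith
  refine ⟨?_, ?_, ?_⟩
  · refine key (k 0) ((s - t) * (s * t)) (-((r - t) * (r * t))) ((r - s) * (r * s)) ?_
      (c2 _ _ hs.1 hs.2 ht.1 ht.2) (by rw [abs_neg]; exact c2 _ _ hr.1 hr.2 ht.1 ht.2)
      (c2 _ _ hr.1 hr.2 hs.1 hs.2)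
    rw [hD, hx, hy, hz]
    ring
  · refine key (k 1) (-((s - t) * (s + t))) ((r - t) * (r + t)) (-((r - s) * (r + s))) ?_
      (by rw [abs_neg]; exact c1 _ _ hs.1 hs.2 ht.1 ht.2) (c1 _ _ hr.1 hr.2 ht.1 ht.2)
      (by rw [abs_neg]; exact c1 _ _ hr.1 hr.2 hs.1 hs.2)
    rw [hD, hx, hy, hz]
    ring
  · refine key (k 2) (s - t) (-(r - t)) (r - s) ?_
      ((b1 _ _ hs.1 hs.2 ht.1 ht.2).trans (by norm_num))
      (by rw [abs_neg]; exact (b1 _ _ hr.1 hr.2 ht.1 ht.2).trans (by norm_num))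
      ((b1 _ _ hr.1 hr.2 hs.1 hs.2).trans (by norm_num))
    rw [hD, hx, hy, hz]
    ring

theorem count (p : Fin 15 → Prop) [DecidablePred p]
    (h : ∀ r s t : Fin 15, r ≠ s → r ≠ t → s ≠ t → p r → p s → p t → False) :
    (Finset.univ.filter p).card ≤ 2 := by
  by_contra hc
  push Not at hc
  obtain ⟨a, ha, b, hb, c, hc, hab, hac, hbc⟩ := Finset.two_lt_card.1 hc
  exact h a b c hab hac hbc (Finset.mem_filter.1 ha).2 (Finset.mem_filter.1 hb).2
    (Finset.mem_filter.1 hc).2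

theorem three' (k : Z3) (r s t : Fin 15) (hrs : r ≠ s) (hrt : r ≠ t) (hst : s ≠ t) (δ : ℝ)
    (h1 : |(vz r k : ℝ)| ≤ δ) (h2 : |(vz s k : ℝ)| ≤ δ) (h3 : |(vz t k : ℝ)| ≤ δ) :
    |(k 0 : ℝ)| ≤ 9000 * δ ∧ |(k 1 : ℝ)| ≤ 9000 * δ ∧ |(k 2 : ℝ)| ≤ 9000 * δ := by
  have hr := r.2
  have hs := s.2
  have ht := t.2
  refine three k (r.1 : ℤ) (s.1 : ℤ) (t.1 : ℤ) ⟨by omega, by omega⟩ ⟨by omega, by omega⟩
    ⟨by omega, by omega⟩ (fun h => hrs (Fin.ext (by omega))) (fun h => hrt (Fin.ext (by omega)))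
    (fun h => hst (Fin.ext (by omega))) δ h1 h2 h3

theorem zeros (k : Z3) (hk : k ≠ 0) : (Finset.univ.filter fun r => vz r k = 0).card ≤ 2 := by
  refine count _ fun r s t hrs hrt hst h1 h2 h3 => hk ?_
  obtain ⟨e0, e1, e2⟩ := three' k r s t hrs hrt hst 0 (by rw [h1]; simp) (by rw [h2]; simp)
    (by rw [h3]; simp)
  rw [mul_zero] at e0 e1 e2
  have f0 : k 0 = 0 := by exact_mod_cast abs_nonpos_iff.1 e0
  have f1 : k 1 = 0 := by exact_mod_cast abs_nonpos_iff.1 e1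
  have f2 : k 2 = 0 := by exact_mod_cast abs_nonpos_iff.1 e2
  funext j
  fin_cases j
  · exact f0
  · exact f1
  · exact f2

theorem len_le (k : Z3) (m : ℝ) (hm : 0 ≤ m) (h0 : |(k 0 : ℝ)| ≤ m) (h1 : |(k 1 : ℝ)| ≤ m)
    (h2 : |(k 2 : ℝ)| ≤ m) : len k ≤ 2 * m := by
  unfold len nsq
  rw [Real.sqrt_le_left (by positivity), Fin.sum_univ_three]
  push_cast
  rw [← sq_abs (k 0 : ℝ), ← sq_abs (k 1 : ℝ), ← sq_abs (k 2 : ℝ)]
  have := pow_le_pow_left₀ (abs_nonneg _) h0 2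
  have := pow_le_pow_left₀ (abs_nonneg _) h1 2
  have := pow_le_pow_left₀ (abs_nonneg _) h2 2
  nlinarith [sq_nonneg m]

theorem len_pos (k : Z3) (hk : k ≠ 0) : 0 < len k := by
  unfold len
  apply Real.sqrt_pos.2
  have h : 0 < nsq k := by
    unfold nsq
    by_contra hc
    push Not at hc
    apply hk
    have h1 := (Finset.sum_eq_zero_iff_of_nonneg fun j _ => sq_nonneg (k j)).1
      (le_antisymm hc (Finset.sum_nonneg fun j _ => sq_nonneg (k j)))
    funext j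
    exact pow_eq_zero_iff two_ne_zero |>.1 (h1 j (Finset.mem_univ j))
  exact_mod_cast h

theorem small (k : Z3) (hk : k ≠ 0) :
    (Finset.univ.filter fun r => |(vz r k : ℝ)| < 1 / 100000 * len k).card ≤ 2 := by
  classical
  refine count _ fun r s t hrs hrt hst h1 h2 h3 => ?_
  obtain ⟨e0, e1, e2⟩ := three' k r s t hrs hrt hst _ h1.le h2.le h3.le
  have hp := len_pos k hk
  have := len_le k _ (by positivity) e0 e1 e2
  linarith

theorem t_LIN : S_LIN := by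
  classical
  refine ⟨1 / 100000, by norm_num, fun a b hab k hk => ?_⟩
  have n1 : a ≠ 0 := by
    rintro rfl
    exact hab ⟨by simp, by simp, by simp⟩
  have n2 : b ≠ 0 := by
    rintro rfl
    exact hab ⟨by simp, by simp, by simp⟩
  have n3 : a + b ≠ 0 := by
    intro h
    have h1 : ∀ j, b j = - a j := fun j => by
      have := congrFun h j
      simp only [Pi.add_apply, Pi.zero_apply] at this
      linarith
    exact hab ⟨by rw [h1, h1]; ring, by rw [h1, h1]; ring, by rw [h1, h1]; ring⟩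
  have n4 : a - b ≠ 0 := by
    intro h
    have h1 : ∀ j, b j = a j := fun j => by
      have := congrFun h j
      simp only [Pi.sub_apply, Pi.zero_apply] at this
      linarith
    exact hab ⟨by rw [h1, h1]; ring, by rw [h1, h1]; ring, by rw [h1, h1]; ring⟩
  have n5 : a + a + b ≠ 0 := by
    intro h
    have h1 : ∀ j, b j = - (2 * a j) := fun j => by
      have := congrFun h j
      simp only [Pi.add_apply, Pi.zero_apply] at this
      linarith
    exact hab ⟨by rw [h1, h1]; ring, by rw [h1, h1]; ring, by rw [h1, h1]; ring⟩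
  have n6 : a + b + b ≠ 0 := by
    intro h
    have h1 : ∀ j, a j = - (2 * b j) := fun j => by
      have := congrFun h j
      simp only [Pi.add_apply, Pi.zero_apply] at this
      linarith
    exact hab ⟨by rw [h1, h1]; ring, by rw [h1, h1]; ring, by rw [h1, h1]; ring⟩
  have n7 : k ≠ 0 := by
    rcases hk with h | h | h
    · rw [h]; exact n1
    · rw [h]; exact n2
    · rw [h]; exact n3
  by_contra hc
  push Not at hc
  have hsub : (Finset.univ : Finset (Fin 15)) ⊆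
      (Finset.univ.filter fun r => vz r a = 0) ∪ ((Finset.univ.filter fun r => vz r b = 0) ∪
      ((Finset.univ.filter fun r => vz r (a + b) = 0) ∪
      ((Finset.univ.filter fun r => vz r (a - b) = 0) ∪
      ((Finset.univ.filter fun r => vz r (a + a + b) = 0) ∪
      ((Finset.univ.filter fun r => vz r (a + b + b) = 0) ∪
      (Finset.univ.filter fun r => |(vz r k : ℝ)| < 1 / 100000 * len k)))))) := by
    intro r _
    simp only [Finset.mem_union, Finset.mem_filter, Finset.mem_univ, true_and]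
    by_contra h
    push Not at h
    obtain ⟨h1, h2, h3, h4, h5, h6, h7⟩ := h
    exact absurd (hc r h1 h2 h3 h4 h5 h6) (not_lt.2 h7)
  have h1 := Finset.card_le_card hsub
  rw [Finset.card_univ, Fintype.card_fin] at h1
  have u1 := Finset.card_union_le (Finset.univ.filter fun r => vz r a = 0)
      ((Finset.univ.filter fun r => vz r b = 0) ∪
      ((Finset.univ.filter fun r => vz r (a + b) = 0) ∪
      ((Finset.univ.filter fun r => vz r (a - b) = 0) ∪
      ((Finset.univ.filter fun r => vz r (a + a + b) = 0) ∪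
      ((Finset.univ.filter fun r => vz r (a + b + b) = 0) ∪
      (Finset.univ.filter fun r => |(vz r k : ℝ)| < 1 / 100000 * len k))))))
  have u2 := Finset.card_union_le (Finset.univ.filter fun r => vz r b = 0)
      ((Finset.univ.filter fun r => vz r (a + b) = 0) ∪
      ((Finset.univ.filter fun r => vz r (a - b) = 0) ∪
      ((Finset.univ.filter fun r => vz r (a + a + b) = 0) ∪
      ((Finset.univ.filter fun r => vz r (a + b + b) = 0) ∪
      (Finset.univ.filter fun r => |(vz r k : ℝ)| < 1 / 100000 * len k)))))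
  have u3 := Finset.card_union_le (Finset.univ.filter fun r => vz r (a + b) = 0)
      ((Finset.univ.filter fun r => vz r (a - b) = 0) ∪
      ((Finset.univ.filter fun r => vz r (a + a + b) = 0) ∪
      ((Finset.univ.filter fun r => vz r (a + b + b) = 0) ∪
      (Finset.univ.filter fun r => |(vz r k : ℝ)| < 1 / 100000 * len k))))
  have u4 := Finset.card_union_le (Finset.univ.filter fun r => vz r (a - b) = 0)
      ((Finset.univ.filter fun r => vz r (a + a + b) = 0) ∪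
      ((Finset.univ.filter fun r => vz r (a + b + b) = 0) ∪
      (Finset.univ.filter fun r => |(vz r k : ℝ)| < 1 / 100000 * len k)))
  have u5 := Finset.card_union_le (Finset.univ.filter fun r => vz r (a + a + b) = 0)
      ((Finset.univ.filter fun r => vz r (a + b + b) = 0) ∪
      (Finset.univ.filter fun r => |(vz r k : ℝ)| < 1 / 100000 * len k))
  have u6 := Finset.card_union_le (Finset.univ.filter fun r => vz r (a + b + b) = 0)
      (Finset.univ.filter fun r => |(vz r k : ℝ)| < 1 / 100000 * len k)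
  have z1 := zeros a n1
  have z2 := zeros b n2
  have z3 := zeros _ n3
  have z4 := zeros _ n4
  have z5 := zeros _ n5
  have z6 := zeros _ n6
  have z7 := small k n7
  omega

end Pool.Agent.Y858.EP.Lin
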